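import Pool.Agent.helper82.LV.Main
import Pool.Agent.helper82.LV.Sanity

/-!
# Laver measurability of boldface Delta-one-one sets gives dominating generalized reals

Let `κ` be an uncountable regular cardinal with `κ^{<κ} = κ`. If every boldface `Δ¹₁` subset of
`κ^κ` is measurable for `κ`-Laver trees, then for every `r ∈ κ^κ` there is `x ∈ κ^κ` dominating
over `L[r]`.

The definitions of the statement are in `Pool/Agent/helper82/LV/Defs.lean` (trees, null, meager and
measurable sets), `Pool/Agent/helper82/LV/Hier.lean` (the hierarchy `L[A]`; its recursion clauses are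
proved in `Pool/Agent/helper82/LV/Sanity.lean`) and `Pool/Agent/helper82/LV/Hull.lean` (`graph`).
-/

set_option autoImplicit false

universe u

open Pool.Agent.helper82.LV Cardinal in
/-- `Δ¹₁(𝕃_κ)` implies that for every `r ∈ κ^κ` there is `x ∈ κ^κ` dominating over `L[r]`. -/
theorem Pool.Agent.Results.MP_aa79b0_lc.DominatingOverLr.result
    (κ : Cardinal.{u}) (hreg : κ.IsRegular) (hunc : ℵ₀ < κ) (hpow : κ ^< κ = κ)
    (hD : ∀ A : Set (κ.ord.ToType → κ.ord.ToType), Delta11 A → LMeas A)
    (r : κ.ord.ToType → κ.ord.ToType) :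
    ∃ x : κ.ord.ToType → κ.ord.ToType, ∀ y : κ.ord.ToType → κ.ord.ToType,
      InL (graph r) (graph y) → ∃ a, ∀ i, a ≤ i → y i < x i := by
  have : RegK κ.ord.ToType := regK_of hreg hunc hpow
  exact main_K hD r
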